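import Pool.Agent.W780.BB.Final

set_option autoImplicit false

/-!
Quantitative bound for the measure of the states for which both thin triangles contain a point
of a finite set.
-/

namespace Pool.Agent.TH225.BL

open Complex Set MeasureTheory Filter Topology Pool.Agent.W780.PG Pool.Agent.W780.BB
  Pool.Agent.W74.BB

open scoped Real ComplexConjugate

theorem im_formula (c : ℂ) (θ : ℝ) :
    (c * conj (dir θ)).im = ‖c‖ * Real.sin (arg c - θ) := by
  have h5 : c * conj (dir θ) = ‖c‖ * exp (((arg c - θ : ℝ) : ℂ) * I) := by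
    conv_lhs => rw [← norm_mul_exp_arg_mul_I c]
    unfold dir
    rw [← exp_conj, mul_assoc, ← exp_add]
    congr 2
    simp
    ring
  rw [h5, im_ofReal_mul, exp_ofReal_mul_I_im]

theorem vol_G (c : ℂ) (δ : ℝ) (hc : c ≠ 0) (hδ : 0 ≤ δ) :
    volume (G c δ) ≤ ENNReal.ofReal (2 * π * δ / ‖c‖) := by
  have hc0 : 0 < ‖c‖ := norm_pos_iff.2 hc
  have hpi := Real.pi_pos
  set s : ℝ := δ / ‖c‖ with hs
  have hs0 : 0 ≤ s := div_nonneg hδ hc0.le
  set R : Set ℝ := {θ : ℝ | |Real.sin (θ - arg c)| ≤ s} with hR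
  have hRm : MeasurableSet R := by
    have h1 : Continuous (fun θ : ℝ => |Real.sin (θ - arg c)|) := by fun_prop
    exact h1.measurable measurableSet_Iic
  have hRp : ∀ θ, θ + 2 * π ∈ R ↔ θ ∈ R := by
    intro θ
    rw [hR, mem_ofPred_eq, mem_ofPred_eq, show θ + 2 * π - arg c = (θ - arg c) + 2 * π by ring,
      Real.sin_add_two_pi]
  have hGR : G c δ ⊆ R ∩ Ico 0 (2 * π) := by
    rintro θ ⟨h1, h2⟩
    refine ⟨?_, h1⟩
    rw [hR, mem_ofPred_eq]
    rw [im_formula, abs_mul, abs_of_pos hc0] at h2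
    rw [show θ - arg c = -(arg c - θ) by ring, Real.sin_neg, abs_neg, hs, le_div_iff₀ hc0]
    linarith
  have hst := strip1 R hRm hRp (arg c - π / 2)
  have hcov : R ∩ Ico (arg c - π / 2) (arg c - π / 2 + 2 * π) ⊆
      Icc (arg c - π / 2 * s) (arg c + π / 2 * s) ∪
        Icc (arg c + π - π / 2 * s) (arg c + π + π / 2 * s) := by
    rintro θ ⟨h1, h2, h3⟩
    rw [hR, mem_ofPred_eq] at h1
    by_cases h4 : θ - arg c ≤ π / 2
    · left
      have h5 : |θ - arg c| ≤ π / 2 := abs_le.2 ⟨by linarith, h4⟩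
      have h6 := Real.mul_abs_le_abs_sin h5
      have h7 : |θ - arg c| ≤ π / 2 * s := by
        have h8 : 2 / π * |θ - arg c| ≤ s := h6.trans h1
        calc |θ - arg c| = π / 2 * (2 / π * |θ - arg c|) := by field_simp
          _ ≤ π / 2 * s := by gcongr
      rw [abs_le] at h7
      exact ⟨by linarith [h7.1], by linarith [h7.2]⟩
    · right
      push Not at h4
      have h5 : |θ - arg c - π| ≤ π / 2 := abs_le.2 ⟨by linarith, by linarith⟩
      have h6 := Real.mul_abs_le_abs_sin h5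
      rw [Real.sin_sub_pi, abs_neg] at h6
      have h7 : |θ - arg c - π| ≤ π / 2 * s := by
        have h8 : 2 / π * |θ - arg c - π| ≤ s := h6.trans h1
        calc |θ - arg c - π| = π / 2 * (2 / π * |θ - arg c - π|) := by field_simp
          _ ≤ π / 2 * s := by gcongr
      rw [abs_le] at h7
      exact ⟨by linarith [h7.1], by linarith [h7.2]⟩
  calc volume (G c δ) ≤ volume (R ∩ Ico 0 (2 * π)) := measure_mono hGR
    _ = volume (R ∩ Ico (arg c - π / 2) (arg c - π / 2 + 2 * π)) := hst.symm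
    _ ≤ volume (Icc (arg c - π / 2 * s) (arg c + π / 2 * s) ∪
        Icc (arg c + π - π / 2 * s) (arg c + π + π / 2 * s)) := measure_mono hcov
    _ ≤ volume (Icc (arg c - π / 2 * s) (arg c + π / 2 * s)) +
        volume (Icc (arg c + π - π / 2 * s) (arg c + π + π / 2 * s)) := measure_union_le _ _
    _ = ENNReal.ofReal (2 * π * δ / ‖c‖) := by
        rw [Real.volume_Icc, Real.volume_Icc, ← ENNReal.ofReal_add (by nlinarith) (by nlinarith)]
        congr 1
        rw [hs]
        ring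

theorem P_quant (a b : ℂ) (T h : ℝ) (hT : 0 < T) (hh : 0 < h) (hh1 : h ≤ 1) :
    volume (P a b T h) ≤ ENNReal.ofReal (2 * π * T ^ 2 * h ^ 2) := by
  by_cases hab : a = b
  · subst hab
    have h1 : P a a T h ⊆ {x : ℂ × ℝ | x.2 ∈ (univ : Set ℝ) ∧
        (a - x.1) * conj (dir x.2) ∈ {w : ℂ | w.re = 0}} := by
      intro x hx
      obtain ⟨-, h2, h3⟩ := hx
      rw [mem_reProdIm] at h2 h3
      exact ⟨trivial, le_antisymm h2.1.2 h3.1.1⟩
    refine (measure_mono h1).trans ?_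
    rw [key a univ {w : ℂ | w.re = 0} MeasurableSet.univ
      (measurable_re (measurableSet_singleton 0)), vol_line, zero_mul]
    exact zero_le
  · have hc : b - a ≠ 0 := sub_ne_zero.2 (Ne.symm hab)
    have hc0 : 0 < ‖b - a‖ := norm_pos_iff.2 hc
    have hpi := Real.pi_pos
    have hs1 : Real.sin h ≤ h := Real.sin_le hh.le
    have hs0 : 0 ≤ Real.sin h := Real.sin_nonneg_of_nonneg_of_le_pi hh.le
      (by have := Real.pi_gt_three; linarith)
    have h4 : P a b T h ⊆ {x : ℂ × ℝ | x.2 ∈ G (b - a) (T * h) ∧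
        (a - x.1) * conj (dir x.2) ∈ Icc (-‖b - a‖) 0 ×ℂ Icc 0 (T * Real.sin h)} := by
      intro x hx
      obtain ⟨h5, h6, h7⟩ := hx
      have h8 : (b - a) * conj (dir x.2) = (b - x.1) * conj (dir x.2) -
        (a - x.1) * conj (dir x.2) := by ring
      rw [mem_reProdIm] at h6 h7
      have h10 : ((b - a) * conj (dir x.2)).re ≤ ‖b - a‖ := by
        refine (Complex.re_le_norm _).trans ?_
        rw [norm_mul, RCLike.norm_conj, Pool.Agent.W74.BB.norm_dir, mul_one]
      rw [h8, sub_re] at h10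
      refine ⟨⟨h5, ?_⟩, ?_⟩
      · rw [h8, sub_im, abs_le]
        have h9 : T * Real.sin h ≤ T * h := mul_le_mul_of_nonneg_left hs1 hT.le
        constructor
        · linarith [h6.2.2, h7.2.1]
        · linarith [h6.2.1, h7.2.2]
      · rw [mem_reProdIm]
        exact ⟨⟨by linarith [h7.1.1], h6.1.2⟩, h6.2⟩
    refine (measure_mono h4).trans ?_
    have hmE : MeasurableSet (Icc (-‖b - a‖) 0 ×ℂ Icc 0 (T * Real.sin h)) :=
      (measurable_re measurableSet_Icc).inter (measurable_im measurableSet_Icc)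
    rw [key a _ _ (G_meas _ _) hmE, vol_rect]
    have h10 : ENNReal.ofReal (0 - -‖b - a‖) * ENNReal.ofReal (T * Real.sin h - 0) ≤
        ENNReal.ofReal (‖b - a‖ * (T * h)) := by
      rw [← ENNReal.ofReal_mul (by linarith)]
      apply ENNReal.ofReal_le_ofReal
      have : T * Real.sin h ≤ T * h := mul_le_mul_of_nonneg_left hs1 hT.le
      nlinarith
    calc ENNReal.ofReal (0 - -‖b - a‖) * ENNReal.ofReal (T * Real.sin h - 0) *
        volume (G (b - a) (T * h)) ≤ ENNReal.ofReal (‖b - a‖ * (T * h)) *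
          ENNReal.ofReal (2 * π * (T * h) / ‖b - a‖) :=
          mul_le_mul' h10 (vol_G _ _ hc (by positivity))
      _ = ENNReal.ofReal (2 * π * T ^ 2 * h ^ 2) := by
        rw [← ENNReal.ofReal_mul (by positivity)]
        congr 1
        field_simp

/-- The measure of the bad set. -/
theorem bad_quant (V : Finset ℂ) (T h : ℝ) (hT : 0 < T) (hh : 0 < h) (hh1 : h ≤ 1) :
    volume (Bad (V : Set ℂ) T h) ≤
      ENNReal.ofReal ((V.card : ℝ) ^ 2 * (2 * π * T ^ 2 * h ^ 2)) := by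
  have h5 : Bad (V : Set ℂ) T h ⊆ ⋃ a ∈ V, ⋃ b ∈ V, P a b T h := by
    have := bad_subset (V : Set ℂ) T h hT hh hh1
    simpa using this
  have hpi := Real.pi_pos
  calc volume (Bad (V : Set ℂ) T h) ≤ volume (⋃ a ∈ V, ⋃ b ∈ V, P a b T h) :=
        measure_mono h5
    _ ≤ ∑ a ∈ V, volume (⋃ b ∈ V, P a b T h) :=
        measure_biUnion_finset_le _ _
    _ ≤ ∑ a ∈ V, ∑ b ∈ V, volume (P a b T h) :=
        Finset.sum_le_sum fun a _ => measure_biUnion_finset_le _ _
    _ ≤ ∑ a ∈ V, ∑ b ∈ V, ENNReal.ofReal (2 * π * T ^ 2 * h ^ 2) :=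
        Finset.sum_le_sum fun a _ => Finset.sum_le_sum fun b _ => P_quant a b T h hT hh hh1
    _ = ENNReal.ofReal ((V.card : ℝ) ^ 2 * (2 * π * T ^ 2 * h ^ 2)) := by
        have hN0 : (0 : ℝ) ≤ V.card := V.card.cast_nonneg
        rw [Finset.sum_const, Finset.sum_const, sq (V.card : ℝ),
          mul_assoc (V.card : ℝ) (V.card : ℝ), ENNReal.ofReal_mul hN0,
          ENNReal.ofReal_mul hN0, ENNReal.ofReal_natCast, nsmul_eq_mul, nsmul_eq_mul]

theorem bad_mono {V V' : Set ℂ} (h : V ⊆ V') (T s : ℝ) : Bad V T s ⊆ Bad V' T s := by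
  rintro x ⟨h1, ⟨a, ha, ha'⟩, b, hb, hb'⟩
  exact ⟨h1, ⟨a, h ha, ha'⟩, b, h hb, hb'⟩

end Pool.Agent.TH225.BL
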