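import Pool.Agent.TH225.BL.BadQ

set_option autoImplicit false

/-!
The main estimate with explicit constants.
-/

namespace Pool.Agent.TH225.BL

open Complex Set MeasureTheory Filter Topology Pool.Agent.W780.PG Pool.Agent.W780.BB

open scoped Real ComplexConjugate

/-- The main estimate, with explicit constants: the effect of a transversal translation by
`T sin h` on an invariant set is controlled by the effect of turning by `h`. -/
theorem est {n : ℕ} {p : Fin (n + 3) → ℂ} (hp : IsConvexPolygon p) (S : Set (ℂ × ℝ))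
    (hS : MeasurableSet S) (hI : IsInvariant p S) (K : ℕ) (T η h : ℝ) (hT : 0 < T)
    (hh0 : 0 < h) (hTh : T * h < η)
    (hK : ∀ z ∈ reg p, ∀ A : ℂ, ‖A - z‖ ≤ T →
      (∀ w j, uf p w (p j) ∉ segment ℝ z A) → (∀ w i, sf p i (fp p w A) ≠ 0) →
      ∃ w : List (Fin (n + 3)), w.length ≤ K ∧ Ch p w z A) :
    volume {x : ℂ × ℝ | x ∈ phase p ∧ Metric.closedBall x.1 η ⊆ reg p ∧
        ¬ (x ∈ S ↔ (x.1 + (T * Real.sin h) • (I * dir x.2), x.2) ∈ S)} ≤
      volume (Bad (VK p K) T h) +
        6 * volume {x : ℂ × ℝ | x ∈ phase p ∧ ¬ (x ∈ S ↔ (x.1, x.2 + h) ∈ S)} := by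
  have hB : S_Basic := Pool.Agent.W174.PG.basic
  have hHull : S_Hull := Pool.Agent.W975.PG.hull hB
  have hRef : S_Ref := Pool.Agent.W347.BB.ref
  have hInv : S_Inv := Pool.Agent.W82.BB.inv hRef hHull
  have hFan : S_Fan := Pool.Agent.W12.BB.Fan.fan hRef
  have hGen : S_Gen := Pool.Agent.W337.BB.gen_th
  have hFlow : S_Flow := Pool.Agent.W462.BBF.flow hRef Pool.Agent.W333.BB.mp
    Pool.Agent.W762.BB.open_it Pool.Agent.W108.BB.uniq (W973.BB.rev hRef) hHull hB
  have hη : 0 < η := lt_trans (mul_pos hT hh0) hTh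
  have hrr : region p = reg p := (hHull n p hp).2
  have hopen : IsOpen (reg p) := (hB n p hp).2.1
  have hregm : MeasurableSet (region p) := by rw [hrr]; exact hopen.measurableSet
  obtain ⟨-, -, -, -, -, -, -, -, -, -, hfd, -⟩ := hRef n p hp
  obtain ⟨-, -, -, -, -, -, -, -, hfd1, -, -, -⟩ := hRef n p hp
  have hWf : {w : List (Fin (n + 3)) | w.length ≤ K}.Finite := List.finite_length_le _ K
  set W := hWf.toFinset with hW
  have hper := hI.periodic
  have g1 := hGen n p hp T
  have g2 := hGen n p hp (-T)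
  -- the pieces
  set N : Set (ℂ × ℝ) := {x | ¬ (((∀ w j, uf p w (p j) ∉ segment ℝ x.1 (x.1 + T • dir x.2)) ∧
    (∀ w i, sf p i (fp p w (x.1 + T • dir x.2)) ≠ 0)) ∧
    ((∀ w j, uf p w (p j) ∉ segment ℝ x.1 (x.1 + (-T) • dir x.2)) ∧
    (∀ w i, sf p i (fp p w (x.1 + (-T) • dir x.2)) ≠ 0)))} with hN
  have hNnull : volume N = 0 := by
    have : ∀ᵐ x : ℂ × ℝ, x ∉ N := by
      filter_upwards [g1, g2] with x h1 h2
      rw [hN]
      simp only [mem_ofPred_eq, not_not]
      exact ⟨h1, h2⟩
    exact measure_eq_zero_iff_ae_notMem.mpr this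
  set B2 : Set (ℂ × ℝ) := Bp S h ∪ Bp S (-h) with hB2
  have hB2m : MeasurableSet B2 := (meas_Bp hS h).union (meas_Bp hS (-h))
  have hB2p : ∀ z θ, (z, θ + 2 * π) ∈ B2 ↔ (z, θ) ∈ B2 := by
    intro z θ
    rw [hB2]
    simp only [mem_union]
    rw [per_Bp hper, per_Bp hper]
  obtain ⟨ω, hω⟩ : ∃ ω, ω = volume {x : ℂ × ℝ | x ∈ phase p ∧
    ¬ (x ∈ S ↔ (x.1, x.2 + h) ∈ S)} := ⟨_, rfl⟩
  have hvol1 : volume (phase p ∩ Bp S h) ≤ ω := by
    rw [hω]
    exact le_of_eq rfl
  have hvolm : volume (phase p ∩ Bp S (-h)) ≤ ω := by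
    rw [vol_neg hS hregm hper]; exact hvol1
  have hvol2 : volume (phase p ∩ B2) ≤ ω + ω := by
    calc volume (phase p ∩ B2) = volume ((phase p ∩ Bp S h) ∪ (phase p ∩ Bp S (-h))) := by
          rw [hB2, inter_union_distrib_left]
      _ ≤ volume (phase p ∩ Bp S h) + volume (phase p ∩ Bp S (-h)) := measure_union_le _ _
      _ ≤ ω + ω := add_le_add hvol1 hvolm
  set E1m : Set (ℂ × ℝ) := {x | x ∈ phase p ∧ ∃ w ∈ W, Ch p w x.1 (x.1 + (-T) • dir x.2) ∧
      fd p w (x.1 + (-T) • dir x.2, x.2) ∈ B2} with hE1m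
  set E1p : Set (ℂ × ℝ) := {x | x ∈ phase p ∧ ∃ w ∈ W, Ch p w x.1 (x.1 + T • dir x.2) ∧
      fd p w (x.1 + T • dir x.2, x.2) ∈ B2} with hE1p
  have hv1m : volume E1m ≤ ω + ω :=
    (hFlow n p hp (-T) B2 hB2m hB2p W).trans hvol2
  have hv1p : volume E1p ≤ ω + ω :=
    (hFlow n p hp T B2 hB2m hB2p W).trans hvol2
  set gm : ℝ → ℂ := fun θ => T • (dir (θ + h) - dir θ) with hgm
  set gp : ℝ → ℂ := fun θ => T • (dir θ - dir (θ - h)) with hgp
  have hgmm : Measurable gm := by
    have : Continuous gm := by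
      rw [hgm]
      exact ((continuous_dir.comp (by fun_prop)).sub continuous_dir).const_smul T
    exact this.measurable
  have hgpm : Measurable gp := by
    have : Continuous gp := by
      rw [hgp]
      exact (continuous_dir.sub (continuous_dir.comp (by fun_prop))).const_smul T
    exact this.measurable
  set E2m : Set (ℂ × ℝ) := {x | x.2 ∈ Ico 0 (2 * π) ∧ x.1 + gm x.2 ∈ region p ∧
      (x.1 + gm x.2, x.2) ∈ Bp S h} with hE2m
  set E2p : Set (ℂ × ℝ) := {x | x.2 ∈ Ico 0 (2 * π) ∧ x.1 + gp x.2 ∈ region p ∧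
      (x.1 + gp x.2, x.2) ∈ Bp S (-h)} with hE2p
  have hv2m : volume E2m ≤ ω := by
    rw [hE2m, vol_shear hS hregm h gm hgmm]; exact hvol1
  have hv2p : volume E2p ≤ ω := by
    rw [hE2p, vol_shear hS hregm (-h) gp hgpm]; exact hvolm
  have hsub : {x : ℂ × ℝ | x ∈ phase p ∧ Metric.closedBall x.1 η ⊆ reg p ∧
        ¬ (x ∈ S ↔ (x.1 + (T * Real.sin h) • (I * dir x.2), x.2) ∈ S)} ⊆
      N ∪ (Bad (VK p K) T h ∪ ((E1m ∪ E2m) ∪ (E1p ∪ E2p))) := by
    rintro ⟨z, θ⟩ ⟨hx1, hx2, hx3⟩
    by_cases hxN : (z, θ) ∈ N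
    · exact Or.inl hxN
    rw [hN, mem_ofPred_eq, not_not] at hxN
    obtain ⟨hxp, hxm⟩ := hxN
    simp only at hxp hxm hx2 hx3
    refine Or.inr ?_
    by_cases hxB : (z, θ) ∈ Bad (VK p K) T h
    · exact Or.inl hxB
    refine Or.inr ?_
    have hzr : z ∈ reg p := hx2 (Metric.mem_closedBall_self hη.le)
    have hzθ : θ ∈ Ico 0 (2 * π) := hx1.2
    have hmem : ∀ v : ℂ, ‖v‖ < η → z + v ∈ reg p := by
      intro v hv
      apply hx2
      rw [Metric.mem_closedBall, dist_eq_norm]
      simpa using hv.le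
    have hd1 : ‖T • (dir (θ + h) - dir θ)‖ < η := by
      rw [norm_smul, Real.norm_eq_abs, abs_of_pos hT]
      have := norm_dir_sub θ h
      rw [abs_of_pos hh0] at this
      calc T * ‖dir (θ + h) - dir θ‖ ≤ T * h := by gcongr
        _ < η := hTh
    have hd2 : ‖T • (dir θ - dir (θ - h))‖ < η := by
      rw [norm_smul, Real.norm_eq_abs, abs_of_pos hT]
      have := norm_dir_sub (θ - h) h
      rw [sub_add_cancel, abs_of_pos hh0] at this
      calc T * ‖dir θ - dir (θ - h)‖ ≤ T * h := by gcongr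
        _ < η := hTh
    have hd3 : ‖(T * Real.sin h) • (I * dir θ)‖ < η := by
      have hnn : ‖I * dir θ‖ = 1 := by rw [norm_mul, norm_I, norm_dir, one_mul]
      rw [norm_smul, hnn, Real.norm_eq_abs, abs_mul, abs_of_pos hT]
      have : |Real.sin h| ≤ |h| := Real.abs_sin_le_abs
      rw [abs_of_pos hh0] at this
      calc T * |Real.sin h| * 1 ≤ T * h := by rw [mul_one]; gcongr
        _ < η := hTh
    have hCm : z + T • (dir (θ + h) - dir θ) ∈ reg p := hmem _ hd1
    have hCp : z + T • (dir θ - dir (θ - h)) ∈ reg p := hmem _ hd2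
    have hCn : z + (T * Real.sin h) • (I * dir θ) ∈ reg p := hmem _ hd3
    have hlen : ∀ s : ℝ, |s| = T → ‖(z + s • dir θ) - z‖ ≤ T := by
      intro s hs
      rw [add_sub_cancel_left, norm_smul, norm_dir, mul_one, Real.norm_eq_abs, hs]
    rw [Bad, mem_ofPred_eq, not_and] at hxB
    have hxB' := hxB hzθ
    rw [not_and_or] at hxB'
    rcases hxB' with hm | hpl
    · -- no vertex in the backward triangle
      left
      push Not at hm
      obtain ⟨w, hwl, hw⟩ := hK z hzr (z + (-T) • dir θ) (hlen (-T) (by rw [abs_neg, abs_of_pos hT]))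
        hxm.1 hxm.2
      have hw2 : Ch p w (z + T • (dir (θ + h) - dir θ)) (z + (-T) • dir θ) := by
        refine hFan n p hp K w z _ _ hwl hzr hCm hw ?_
        intro a ha hain
        refine hm a ha ?_
        rw [neg_smul, ← sub_eq_add_neg] at hain
        exact hain
      have i1 := hInv n p hp S hI w z θ (-T) hzr hw
      have ht : z + T • (dir (θ + h) - dir θ) + (-T) • dir (θ + h) = z + (-T) • dir θ := by
        simp only [real_smul]
        push_cast
        ring
      have i2 := hInv n p hp S hI w (z + T • (dir (θ + h) - dir θ)) (θ + h) (-T) hCm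
        (by rw [ht]; exact hw2)
      rw [ht] at i2
      have i3 : ((z + (T * Real.sin h) • (I * dir θ), θ) ∈ S ↔
          (z + T • (dir (θ + h) - dir θ), θ) ∈ S) := by
        have := hI.free (z + (T * Real.sin h) • (I * dir θ)) θ (T * (Real.cos h - 1))
          (by rw [hrr]; exact hCn) (by rw [hrr, ← minus_formula]; exact hCm)
        rw [← minus_formula] at this
        exact this
      by_cases hE2 : (z + T • (dir (θ + h) - dir θ), θ) ∈ Bp S h
      · right
        exact ⟨hzθ, by rw [hrr]; exact hCm, hE2⟩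
      left
      refine ⟨hx1, w, by rw [hW]; simpa using hwl, hw, ?_⟩
      rw [Bp, mem_ofPred_eq, not_not] at hE2
      simp only at hE2
      by_contra hcon
      rw [hB2, mem_union, not_or] at hcon
      obtain ⟨e, c, he, hec⟩ := hfd w
      have f1 : (fd p w (z + (-T) • dir θ, θ)) = (fp p w (z + (-T) • dir θ), e * θ + c) := by
        refine Prod.ext (hfd1 w _ _) (hec _ _).1
      have f2 : (fd p w (z + (-T) • dir θ, θ + h)) =
          (fp p w (z + (-T) • dir θ), e * θ + c + e * h) := by
        refine Prod.ext (hfd1 w _ _) ?_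
        rw [(hec _ _).1]
        ring
      have hee : e = 1 ∨ e = -1 := by rw [he]; exact neg_one_pow_eq_or ℝ _
      have key : (fd p w (z + (-T) • dir θ, θ) ∈ S ↔ fd p w (z + (-T) • dir θ, θ + h) ∈ S) := by
        rw [f1, Bp, mem_ofPred_eq, not_not, Bp, mem_ofPred_eq, not_not] at hcon
        simp only at hcon
        rw [f1, f2]
        rcases hee with rfl | rfl
        · have := hcon.1
          simpa using this
        · have := hcon.2
          simpa using this
      apply hx3
      rw [i1, key, ← i2, ← hE2, i3]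
    · right
      push Not at hpl
      obtain ⟨w, hwl, hw⟩ := hK z hzr (z + T • dir θ) (hlen T (abs_of_pos hT)) hxp.1 hxp.2
      have hw2 : Ch p w (z + T • (dir θ - dir (θ - h))) (z + T • dir θ) := by
        refine hFan n p hp K w z _ _ hwl hzr hCp hw ?_
        intro a ha hain
        exact hpl a ha hain
      have i1 := hInv n p hp S hI w z θ T hzr hw
      have ht : z + T • (dir θ - dir (θ - h)) + T • dir (θ - h) = z + T • dir θ := by
        simp only [real_smul]
        ring
      have i2 := hInv n p hp S hI w (z + T • (dir θ - dir (θ - h))) (θ - h) T hCp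
        (by rw [ht]; exact hw2)
      rw [ht] at i2
      have i3 : ((z + (T * Real.sin h) • (I * dir θ), θ) ∈ S ↔
          (z + T • (dir θ - dir (θ - h)), θ) ∈ S) := by
        have := hI.free (z + (T * Real.sin h) • (I * dir θ)) θ (T * (1 - Real.cos h))
          (by rw [hrr]; exact hCn) (by rw [hrr, ← plus_formula]; exact hCp)
        rw [← plus_formula] at this
        exact this
      by_cases hE2 : (z + T • (dir θ - dir (θ - h)), θ) ∈ Bp S (-h)
      · right
        exact ⟨hzθ, by rw [hrr]; exact hCp, hE2⟩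
      left
      refine ⟨hx1, w, by rw [hW]; simpa using hwl, hw, ?_⟩
      rw [Bp, mem_ofPred_eq, not_not] at hE2
      simp only at hE2
      by_contra hcon
      rw [hB2, mem_union, not_or] at hcon
      obtain ⟨e, c, he, hec⟩ := hfd w
      have f1 : (fd p w (z + T • dir θ, θ)) = (fp p w (z + T • dir θ), e * θ + c) := by
        refine Prod.ext (hfd1 w _ _) (hec _ _).1
      have f2 : (fd p w (z + T • dir θ, θ - h)) =
          (fp p w (z + T • dir θ), e * θ + c + -(e * h)) := by
        refine Prod.ext (hfd1 w _ _) ?_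
        rw [(hec _ _).1]
        ring
      have hee : e = 1 ∨ e = -1 := by rw [he]; exact neg_one_pow_eq_or ℝ _
      have key : (fd p w (z + T • dir θ, θ) ∈ S ↔ fd p w (z + T • dir θ, θ - h) ∈ S) := by
        rw [f1, Bp, mem_ofPred_eq, not_not, Bp, mem_ofPred_eq, not_not] at hcon
        simp only at hcon
        rw [f1, f2]
        rcases hee with rfl | rfl
        · have := hcon.2
          simpa using this
        · have := hcon.1
          simpa using this
      apply hx3
      rw [sub_eq_add_neg] at key i2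
      rw [← sub_eq_add_neg] at key i2
      rw [i1, key, ← i2, i3]
      rw [← sub_eq_add_neg] at hE2
      exact hE2.symm
  calc volume {x : ℂ × ℝ | x ∈ phase p ∧ Metric.closedBall x.1 η ⊆ reg p ∧
        ¬ (x ∈ S ↔ (x.1 + (T * Real.sin h) • (I * dir x.2), x.2) ∈ S)}
      ≤ volume (N ∪ (Bad (VK p K) T h ∪ ((E1m ∪ E2m) ∪ (E1p ∪ E2p)))) := measure_mono hsub
    _ ≤ volume N + (volume (Bad (VK p K) T h) +
        ((volume E1m + volume E2m) + (volume E1p + volume E2p))) := by
        refine (measure_union_le _ _).trans ?_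
        gcongr
        refine (measure_union_le _ _).trans ?_
        gcongr
        refine (measure_union_le _ _).trans ?_
        gcongr
        · exact measure_union_le _ _
        · exact measure_union_le _ _
    _ ≤ 0 + (volume (Bad (VK p K) T h) + (((ω + ω) + ω) + ((ω + ω) + ω))) := by
        gcongr
        exact hNnull.le
    _ = volume (Bad (VK p K) T h) + 6 * ω := by
        ring
    _ = _ := by rw [hω]

end Pool.Agent.TH225.BL
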