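import Pool.Agent.W780.BB.Final

set_option autoImplicit false

/-!
Linear bounds for the number of reflections; the number of unfolded vertices grows at most
exponentially.
-/

namespace Pool.Agent.TH225.BL

open Complex Set MeasureTheory Filter Topology Pool.Agent.W780.PG Pool.Agent.W780.BB

open scoped Real ComplexConjugate

/-- The number of reflections is at most linear in the time. -/
theorem unif_lin (hA : S_Alt) (hT : S_Trip) (n : ℕ) (p : Fin (n + 3) → ℂ)
    (hp : IsConvexPolygon p) : ∃ (N : ℕ) (d : ℝ), 0 < d ∧ ∀ (T : ℝ) (u : ℕ → Fin (n + 3))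
    (y : ℕ → ℂ) (θ l : ℕ → ℝ) (m : ℕ), (∀ k ≤ m, y k ∈ side p (u k)) →
    (∀ k < m, 0 < l k ∧ y (k + 1) = y k + l k • dir (θ k) ∧
      θ (k + 1) = 2 * tau p (u (k + 1)) - θ k ∧ u (k + 1) ≠ u k) →
    ∑ k ∈ Finset.range m, l k ≤ T → m ≤ N * (⌊T / d⌋₊ + 1) := by
  obtain ⟨N, d1, hd1, hA⟩ := hA n p hp
  obtain ⟨d2, hd2, hT⟩ := hT n p hp
  obtain ⟨d, hd⟩ : ∃ d, d = min d1 d2 := ⟨_, rfl⟩
  have hd0 : 0 < d := by rw [hd]; exact lt_min hd1 hd2
  have hdd1 : d ≤ d1 := by rw [hd]; exact min_le_left _ _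
  have hdd2 : d ≤ d2 := by rw [hd]; exact min_le_right _ _
  refine ⟨N + 2, d, hd0, ?_⟩
  intro T u y θ l m hy hs hsum
  have hl : ∀ k < m, 0 < l k := fun k hk => (hs k hk).1
  -- one window
  have hwin : ∀ a : ℕ, a + (N + 2) ≤ m → d ≤ ∑ k ∈ Finset.range (N + 2), l (a + k) := by
    intro a ha
    have hpos : ∀ k ∈ Finset.range (N + 2), 0 ≤ l (a + k) := fun k hk =>
      (hl _ (by have := Finset.mem_range.1 hk; omega)).le
    by_cases halt : ∀ k, k + 2 ≤ N + 2 → u (a + (k + 2)) = u (a + k)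
    · obtain ⟨k, hk, hk2⟩ := hA (fun k => u (a + k)) (fun k => y (a + k)) (fun k => θ (a + k))
        (fun k => l (a + k)) (N + 2) (fun k hk => hy _ (by omega))
        (fun k hk => by
          have := hs (a + k) (by omega)
          simpa only [add_assoc] using this)
        halt (by omega)
      have h1 := Finset.single_le_sum hpos (Finset.mem_range.2 hk)
      linarith
    · push Not at halt
      obtain ⟨k, hk, hne⟩ := halt
      have s0 := hs (a + k) (by omega)
      have s1 := hs (a + k + 1) (by omega)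
      have hy0 := hy (a + k) (by omega)
      have hy1 := hy (a + k + 1) (by omega)
      have hy2 := hy (a + k + 1 + 1) (by omega)
      have h1 := hT (u (a + k)) (u (a + k + 1)) (u (a + k + 1 + 1)) (y (a + k)) (y (a + k + 1))
        (y (a + k + 1 + 1)) (θ (a + k)) (l (a + k)) (l (a + k + 1)) (Ne.symm s0.2.2.2)
        (Ne.symm s1.2.2.2) (Ne.symm hne) hy0 hy1 hy2 s0.1 s1.1 s0.2.1
        (by rw [← s0.2.2.1]; exact s1.2.1)
      have h2 : l (a + k) + l (a + k + 1) ≤ ∑ k ∈ Finset.range (N + 2), l (a + k) := by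
        have h3 : ({k, k + 1} : Finset ℕ) ⊆ Finset.range (N + 2) := by
          intro x hx
          rw [Finset.mem_insert, Finset.mem_singleton] at hx
          rw [Finset.mem_range]
          omega
        have h4 := Finset.sum_le_sum_of_subset_of_nonneg (f := fun k => l (a + k)) h3
          (fun i hi _ => hpos i hi)
        rw [Finset.sum_pair (by omega)] at h4
        exact h4
      linarith
  -- several windows
  have hmany : ∀ q : ℕ, q * (N + 2) ≤ m → d * q ≤ ∑ k ∈ Finset.range (q * (N + 2)), l k := by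
    intro q
    induction q with
    | zero => intro _; simp
    | succ q ih =>
      intro hq
      have e : (q + 1) * (N + 2) = q * (N + 2) + (N + 2) := by ring
      rw [e] at hq ⊢
      rw [Finset.sum_range_add]
      have h1 := ih (by omega)
      have h2 := hwin _ hq
      push_cast
      linarith
  have hq : m / (N + 2) * (N + 2) ≤ m := Nat.div_mul_le_self _ _
  have h1 := hmany _ hq
  have h2 : ∑ k ∈ Finset.range (m / (N + 2) * (N + 2)), l k ≤ ∑ k ∈ Finset.range m, l k := by
    refine Finset.sum_le_sum_of_subset_of_nonneg (Finset.range_subset_range.2 hq) ?_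
    intro i hi _
    exact (hl i (Finset.mem_range.1 hi)).le
  have h3 : ((m / (N + 2) : ℕ) : ℝ) ≤ T / d := by
    rw [le_div_iff₀ hd0]
    linarith
  have h4 : m / (N + 2) ≤ ⌊T / d⌋₊ := Nat.le_floor h3
  have h5 : m < (N + 2) * (m / (N + 2) + 1) := Nat.lt_mul_div_succ m (by omega)
  have h6 : (N + 2) * (m / (N + 2) + 1) ≤ (N + 2) * (⌊T / d⌋₊ + 1) :=
    Nat.mul_le_mul_left _ (by omega)
  omega

/-- Existence of itineraries, with a linear bound for the number of reflections. -/
theorem exist_lin (n : ℕ) (p : Fin (n + 3) → ℂ) (hp : IsConvexPolygon p) :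
    ∃ (N : ℕ) (d : ℝ), 0 < d ∧ ∀ (T : ℝ), ∀ z ∈ reg p, ∀ A : ℂ, ‖A - z‖ ≤ T →
    (∀ w j, uf p w (p j) ∉ segment ℝ z A) → (∀ w i, sf p i (fp p w A) ≠ 0) →
    ∃ w : List (Fin (n + 3)), w.length ≤ N * (⌊T / d⌋₊ + 1) + 1 ∧ Ch p w z A := by
  have hR : S_Ref := Pool.Agent.W347.BB.ref
  have hB : S_Basic := Pool.Agent.W174.PG.basic
  have hEx : S_Exit := Pool.Agent.W337.BB.exit_th
  obtain ⟨N, d, hd, hK⟩ := unif_lin W327.BB.alt (Pool.Agent.W340.BB.Trip.trip hR hB) n p hp
  refine ⟨N, d, hd, fun T z hz A hA h1 h2 => ?_⟩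
  set K := N * (⌊T / d⌋₊ + 1) with hKdef
  have hAe : A = z + ‖A - z‖ • dir (arg (A - z)) := by
    unfold dir
    rw [Complex.real_smul, Complex.norm_mul_exp_arg_mul_I]
    ring
  have := Pool.Agent.W345.BB.main hR hEx hp (K + 1) z ‖A - z‖ (arg (A - z)) (norm_nonneg _)
    (Or.inl hz) (by rw [← hAe]; exact ⟨h1, h2⟩)
  rw [← hAe] at this
  rcases this with h | ⟨u, y, φ, l, l₁, q1, q2, q3, q4, q5, q6, q7⟩
  · exact h
  · exfalso
    have := hK T u y φ l (K + 1) q1 q2 (by linarith)
    omega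

/-- The unfolded vertices, as a finite set. -/
noncomputable def VF {n : ℕ} (p : Fin (n + 3) → ℂ) : ℕ → Finset ℂ
  | 0 => Finset.univ.image p
  | K + 1 => VF p K ∪ Finset.univ.biUnion fun i => (VF p K).image (rf p i)

theorem VF_mono {n : ℕ} (p : Fin (n + 3) → ℂ) (K : ℕ) : VF p K ⊆ VF p (K + 1) := by
  rw [VF]
  exact Finset.subset_union_left

theorem VF_base {n : ℕ} (p : Fin (n + 3) → ℂ) (j : Fin (n + 3)) (K : ℕ) : p j ∈ VF p K := by
  induction K with
  | zero => rw [VF]; exact Finset.mem_image_of_mem _ (Finset.mem_univ _)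
  | succ K ih => exact VF_mono p K ih

theorem VF_uf {n : ℕ} (p : Fin (n + 3) → ℂ) (j : Fin (n + 3)) :
    ∀ (w : List (Fin (n + 3))) (K : ℕ), w.length ≤ K → uf p w (p j) ∈ VF p K := by
  intro w
  induction w with
  | nil => intro K _; rw [uf]; exact VF_base p j K
  | cons i w ih =>
    intro K hK
    cases K with
    | zero => simp at hK
    | succ K =>
      rw [uf, VF]
      apply Finset.mem_union_right
      rw [Finset.mem_biUnion]
      exact ⟨i, Finset.mem_univ _, Finset.mem_image_of_mem _ (ih K (by simpa using hK))⟩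

theorem VK_sub {n : ℕ} (p : Fin (n + 3) → ℂ) (K : ℕ) : VK p K ⊆ VF p K := by
  rintro a ⟨w, hw, j, rfl⟩
  exact VF_uf p j w K hw

theorem VF_card {n : ℕ} (p : Fin (n + 3) → ℂ) (K : ℕ) :
    (VF p K).card ≤ (n + 3) * (n + 4) ^ K := by
  induction K with
  | zero =>
    rw [VF]
    refine Finset.card_image_le.trans ?_
    simp
  | succ K ih =>
    rw [VF]
    refine (Finset.card_union_le _ _).trans ?_
    have h1 : (Finset.univ.biUnion fun i => (VF p K).image (rf p i)).card ≤
        (n + 3) * (VF p K).card := by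
      refine Finset.card_biUnion_le.trans ?_
      refine (Finset.sum_le_sum fun i _ => Finset.card_image_le).trans ?_
      simp
    calc (VF p K).card + (Finset.univ.biUnion fun i => (VF p K).image (rf p i)).card
        ≤ (VF p K).card + (n + 3) * (VF p K).card := by omega
      _ = (n + 4) * (VF p K).card := by ring
      _ ≤ (n + 4) * ((n + 3) * (n + 4) ^ K) := Nat.mul_le_mul_left _ ih
      _ = (n + 3) * (n + 4) ^ (K + 1) := by ring

end Pool.Agent.TH225.BL
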