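import Pool.Agent.TH225.BL.Est
import Pool.Agent.TH225.BL.Lin

set_option autoImplicit false

/-!
Sets whose directional perimeter at scale `h` is, along a sequence of scales, `o(log (1 / h))`.
-/

namespace Pool.Agent.TH225.BL

open Complex Set MeasureTheory Filter Topology Pool.Agent.W780.PG Pool.Agent.W780.BB

open scoped Real ComplexConjugate

/-- Turning all directions by `h` changes `A` by a set of measure at most `ε h log (1 / h)`, for
every `ε` and suitable arbitrarily small `h`. -/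
def SlowPerimeter {n : ℕ} (p : Fin (n + 3) → ℂ) (A : Set (ℂ × ℝ)) : Prop :=
  ∀ ε : ℝ, 0 < ε → ∃ᶠ h : ℝ in 𝓝[>] 0,
    volume {x : ℂ × ℝ | x ∈ phase p ∧ ¬ (x ∈ A ↔ (x.1, x.2 + h) ∈ A)} ≤
      ENNReal.ofReal (ε * (h * Real.log (1 / h)))

theorem card_bound {n : ℕ} (p : Fin (n + 3) → ℂ) (N : ℕ) (d : ℝ) (hd : 0 < d) :
    ∃ M c : ℝ, 0 < M ∧ 0 < c ∧ ∀ T : ℝ, 0 < T →
      ((VF p (N * (⌊T / d⌋₊ + 1) + 1)).card : ℝ) ^ 2 ≤ M * Real.exp (c * T) := by
  have hn : (1 : ℝ) < (n : ℝ) + 4 := by have : (0 : ℝ) ≤ n := n.cast_nonneg; linarith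
  have hlog : 0 < Real.log ((n : ℝ) + 4) := Real.log_pos hn
  refine ⟨(((n : ℝ) + 3) * Real.exp ((N + 1) * Real.log ((n : ℝ) + 4))) ^ 2,
    2 * (N * Real.log ((n : ℝ) + 4) / d) + 1, by positivity, by positivity, fun T hT => ?_⟩
  set K := N * (⌊T / d⌋₊ + 1) + 1 with hK
  have h1 : ((VF p K).card : ℝ) ≤ ((n : ℝ) + 3) * ((n : ℝ) + 4) ^ K := by
    have := VF_card p K
    exact_mod_cast this
  have h2 : ((n : ℝ) + 4) ^ K = Real.exp (K * Real.log ((n : ℝ) + 4)) := by
    rw [← Real.rpow_natCast, Real.rpow_def_of_pos (by linarith), mul_comm]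
  have h3 : (K : ℝ) ≤ N * (T / d) + (N + 1) := by
    rw [hK]
    push_cast
    have h4 : ((⌊T / d⌋₊ : ℕ) : ℝ) ≤ T / d := Nat.floor_le (by positivity)
    have h5 : (0 : ℝ) ≤ N := N.cast_nonneg
    nlinarith
  have h6 : ((n : ℝ) + 4) ^ K ≤ Real.exp ((N + 1) * Real.log ((n : ℝ) + 4)) *
      Real.exp (N * Real.log ((n : ℝ) + 4) / d * T) := by
    rw [h2, ← Real.exp_add]
    apply Real.exp_le_exp.2
    calc (K : ℝ) * Real.log ((n : ℝ) + 4) ≤
        (N * (T / d) + (N + 1)) * Real.log ((n : ℝ) + 4) := by gcongr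
      _ = (N + 1) * Real.log ((n : ℝ) + 4) + N * Real.log ((n : ℝ) + 4) / d * T := by
        field_simp
        ring
  have h7 : ((VF p K).card : ℝ) ≤ (((n : ℝ) + 3) *
      Real.exp ((N + 1) * Real.log ((n : ℝ) + 4))) *
      Real.exp (N * Real.log ((n : ℝ) + 4) / d * T) := by
    refine h1.trans ?_
    rw [mul_assoc]
    gcongr
  calc ((VF p K).card : ℝ) ^ 2 ≤ ((((n : ℝ) + 3) *
      Real.exp ((N + 1) * Real.log ((n : ℝ) + 4))) *
      Real.exp (N * Real.log ((n : ℝ) + 4) / d * T)) ^ 2 := by gcongr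
    _ = (((n : ℝ) + 3) * Real.exp ((N + 1) * Real.log ((n : ℝ) + 4))) ^ 2 *
        Real.exp (2 * (N * Real.log ((n : ℝ) + 4) / d) * T) := by
        rw [mul_pow, sq (Real.exp (N * Real.log ((n : ℝ) + 4) / d * T)), ← Real.exp_add]
        congr 2
        ring
    _ ≤ (((n : ℝ) + 3) * Real.exp ((N + 1) * Real.log ((n : ℝ) + 4))) ^ 2 *
        Real.exp ((2 * (N * Real.log ((n : ℝ) + 4) / d) + 1) * T) := by
        gcongr
        linarith

/-- The numerical part. -/
theorem numbers (M c δ ε h : ℝ) (v : ENNReal) (hM : 0 < M) (hc : 0 < c) (hδ : 0 < δ)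
    (hε : 0 < ε) (hh : 0 < h) (hh1 : h < 1) (k : ℕ)
    (hk : (k : ℝ) ≤ 2 * δ / (Real.log (1 / h) / (2 * c) * Real.sin h))
    (T : ℝ) (hT0 : 0 < T) (hT : T ≤ Real.log (1 / h) / (2 * c))
    (hsmall : 2 * π ^ 2 * δ * M / (2 * c) * (Real.log (1 / h) * √h) ≤ ε)
    (hv : v ≤ k * (ENNReal.ofReal (M * Real.exp (c * T) * (2 * π * T ^ 2 * h ^ 2)) +
      6 * ENNReal.ofReal (ε * (h * Real.log (1 / h))))) :
    v ≤ ENNReal.ofReal ((12 * π * δ * c + 1) * ε) := by
  have hpi := Real.pi_pos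
  set L := Real.log (1 / h) with hL
  have hL0 : 0 < L := Real.log_pos (by rw [lt_div_iff₀ hh]; linarith)
  obtain ⟨s, hs⟩ : ∃ s, s = √h := ⟨_, rfl⟩
  have hs0 : 0 < s := by rw [hs]; exact Real.sqrt_pos.2 hh
  have hs2 : h = s ^ 2 := by rw [hs, Real.sq_sqrt hh.le]
  rw [← hs] at hsmall
  have hsin : 2 / π * h ≤ Real.sin h := Real.mul_le_sin hh.le (by
    have := Real.pi_gt_three; linarith)
  have hk2 : (k : ℝ) ≤ 2 * π * δ * c / (L * s ^ 2) := by
    refine hk.trans ?_
    rw [div_le_div_iff₀ (by have : 0 < Real.sin h := lt_of_lt_of_le (by positivity) hsin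
                            positivity) (by positivity)]
    have h1 : 2 * δ * (L * s ^ 2) = 2 * δ * L * h := by rw [hs2]; ring
    have h2 : 2 * π * δ * c * (L / (2 * c) * Real.sin h) = π * δ * L * Real.sin h := by
      field_simp
    rw [h1, h2]
    calc 2 * δ * L * h = π * δ * L * (2 / π * h) := by field_simp
      _ ≤ π * δ * L * Real.sin h := by gcongr
  have hexp : Real.exp (c * T) ≤ 1 / s := by
    have h1 : c * T ≤ L / 2 := by
      calc c * T ≤ c * (L / (2 * c)) := by gcongr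
        _ = L / 2 := by field_simp
    refine (Real.exp_le_exp.2 h1).trans ?_
    rw [Real.exp_half, hL, Real.exp_log (by positivity), Real.sqrt_div zero_le_one,
      Real.sqrt_one, hs]
  have hA : M * Real.exp (c * T) * (2 * π * T ^ 2 * h ^ 2) ≤
      M * (1 / s) * (2 * π * (L / (2 * c)) ^ 2 * h ^ 2) := by
    gcongr
  have hk0 : (0 : ℝ) ≤ k := k.cast_nonneg
  calc v ≤ k * (ENNReal.ofReal (M * Real.exp (c * T) * (2 * π * T ^ 2 * h ^ 2)) +
      6 * ENNReal.ofReal (ε * (h * L))) := hv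
    _ = ENNReal.ofReal (k * (M * Real.exp (c * T) * (2 * π * T ^ 2 * h ^ 2) +
        6 * (ε * (h * L)))) := by
        rw [ENNReal.ofReal_mul hk0, ENNReal.ofReal_add (by positivity) (by positivity),
          ENNReal.ofReal_mul (by norm_num : (0 : ℝ) ≤ 6), ENNReal.ofReal_natCast]
        norm_num
    _ ≤ ENNReal.ofReal ((12 * π * δ * c + 1) * ε) := by
        apply ENNReal.ofReal_le_ofReal
        calc (k : ℝ) * (M * Real.exp (c * T) * (2 * π * T ^ 2 * h ^ 2) + 6 * (ε * (h * L)))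
            ≤ 2 * π * δ * c / (L * s ^ 2) *
              (M * (1 / s) * (2 * π * (L / (2 * c)) ^ 2 * h ^ 2) + 6 * (ε * (h * L))) := by
              gcongr
          _ = 2 * π ^ 2 * δ * M / (2 * c) * (L * s) + 12 * π * δ * c * ε := by
              rw [hs2]
              field_simp
              ring
          _ ≤ ε + 12 * π * δ * c * ε := by gcongr
          _ = (12 * π * δ * c + 1) * ε := by ring

theorem log_sqrt_tendsto : Tendsto (fun h : ℝ => Real.log (1 / h) * √h) (𝓝[>] 0) (𝓝 0) := by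
  have h1 := tendsto_log_mul_rpow_nhdsGT_zero (r := 1 / 2) (by norm_num)
  have h2 := h1.neg
  rw [neg_zero] at h2
  refine h2.congr fun x => ?_
  rw [Real.sqrt_eq_rpow, one_div x, Real.log_inv]
  ring

theorem log_id_tendsto : Tendsto (fun h : ℝ => Real.log (1 / h) * h) (𝓝[>] 0) (𝓝 0) := by
  have h1 := tendsto_log_mul_rpow_nhdsGT_zero (r := 1) (by norm_num)
  have h2 := h1.neg
  rw [neg_zero] at h2
  refine h2.congr fun x => ?_
  rw [Real.rpow_one, one_div, Real.log_inv]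
  ring

/-- Small transversal translations do not change the set. -/
theorem lim_slow {n : ℕ} {p : Fin (n + 3) → ℂ} (hp : IsConvexPolygon p) (S : Set (ℂ × ℝ))
    (hS : MeasurableSet S) (hI : IsInvariant p S) (hF : SlowPerimeter p S)
    (η δ : ℝ) (hδ : 0 < δ) (hδη : δ < η) :
    volume {x : ℂ × ℝ | x ∈ phase p ∧ Metric.closedBall x.1 (2 * η) ⊆ reg p ∧
        ¬ (x ∈ S ↔ (x.1 + δ • (I * dir x.2), x.2) ∈ S)} = 0 := by
  have hB : S_Basic := Pool.Agent.W174.PG.basic
  have hHull : S_Hull := Pool.Agent.W975.PG.hull hB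
  have hreg : region p = reg p := (hHull n p hp).2
  have hη : 0 < η := hδ.trans hδη
  have hpi := Real.pi_pos
  obtain ⟨N, d, hd, hex⟩ := exist_lin n p hp
  obtain ⟨M, c, hM, hc, hcard⟩ := card_bound p N d hd
  have key : ∀ ε : ℝ, 0 < ε → volume (Pool.Agent.W396.BB.DD p S (2 * η) δ) ≤
      ENNReal.ofReal ((12 * π * δ * c + 1) * ε) := by
    intro ε hε
    have e1 : ∀ᶠ h in 𝓝[>] (0 : ℝ), h < 1 := by
      filter_upwards [Ioo_mem_nhdsGT (zero_lt_one : (0 : ℝ) < 1)] with h hh using hh.2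
    have e2 : ∀ᶠ h in 𝓝[>] (0 : ℝ), Real.log (1 / h) * h < min η δ * (2 * c) :=
      log_id_tendsto.eventually (gt_mem_nhds (by positivity))
    have e3 : ∀ᶠ h in 𝓝[>] (0 : ℝ), Real.log (1 / h) * √h <
        ε / (2 * π ^ 2 * δ * M / (2 * c)) :=
      log_sqrt_tendsto.eventually (gt_mem_nhds (by positivity))
    obtain ⟨h, hω, hh1, hη1, hsm, hh0⟩ := ((hF ε hε).and_eventually
      (e1.and (e2.and (e3.and self_mem_nhdsWithin)))).exists
    have hh : 0 < h := hh0
    have hsmall : 2 * π ^ 2 * δ * M / (2 * c) * (Real.log (1 / h) * √h) ≤ ε := by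
      rw [lt_div_iff₀ (by positivity)] at hsm
      linarith
    have hL0 : 0 < Real.log (1 / h) := Real.log_pos (by rw [lt_div_iff₀ hh]; linarith)
    obtain ⟨T', hT'⟩ : ∃ T', T' = Real.log (1 / h) / (2 * c) := ⟨_, rfl⟩
    have hT'0 : 0 < T' := by rw [hT']; positivity
    have hT'h : T' * h < min η δ := by
      rw [hT', div_mul_eq_mul_div, div_lt_iff₀ (by positivity)]
      exact hη1
    have hsin1 : Real.sin h ≤ h := Real.sin_le hh.le
    have hsin0 : 0 < Real.sin h := Real.sin_pos_of_pos_of_lt_pi hh (by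
      have := Real.pi_gt_three; linarith)
    obtain ⟨k, hk⟩ : ∃ k, k = ⌈δ / (T' * Real.sin h)⌉₊ := ⟨_, rfl⟩
    have hq0 : 0 < δ / (T' * Real.sin h) := by positivity
    have hk0 : 0 < k := by rw [hk]; exact Nat.ceil_pos.2 hq0
    have hk1 : δ / (T' * Real.sin h) ≤ k := by rw [hk]; exact Nat.le_ceil _
    have hk2 : (k : ℝ) < δ / (T' * Real.sin h) + 1 := by rw [hk]; exact Nat.ceil_lt_add_one hq0.le
    have hkR : (0 : ℝ) < k := by exact_mod_cast hk0
    have hTδ : T' * Real.sin h ≤ δ := by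
      have : T' * Real.sin h ≤ T' * h := by gcongr
      have h2 := min_le_right η δ
      linarith
    have hk3 : (k : ℝ) ≤ 2 * δ / (T' * Real.sin h) := by
      have h1 : 1 ≤ δ / (T' * Real.sin h) := by rw [le_div_iff₀ (by positivity)]; linarith
      calc (k : ℝ) ≤ δ / (T' * Real.sin h) + 1 := hk2.le
        _ ≤ δ / (T' * Real.sin h) + δ / (T' * Real.sin h) := by gcongr
        _ = 2 * δ / (T' * Real.sin h) := by ring
    obtain ⟨T, hT⟩ : ∃ T, T = δ / (k * Real.sin h) := ⟨_, rfl⟩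
    have hT0 : 0 < T := by rw [hT]; positivity
    have hTT : T ≤ T' := by
      rw [hT, div_le_iff₀ (by positivity)]
      rw [div_le_iff₀ (by positivity)] at hk1
      calc δ ≤ k * (T' * Real.sin h) := hk1
        _ = T' * (k * Real.sin h) := by ring
    have hTs : T * Real.sin h = δ / k := by rw [hT]; field_simp
    have hTh : T * h < η := by
      calc T * h ≤ T' * h := by gcongr
        _ < min η δ := hT'h
        _ ≤ η := min_le_left _ _
    have hest := est hp S hS hI (N * (⌊T / d⌋₊ + 1) + 1) T η h hT0 hh hTh (hex T)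
    rw [hTs] at hest
    have hbad : volume (Bad (VK p (N * (⌊T / d⌋₊ + 1) + 1)) T h) ≤
        ENNReal.ofReal (M * Real.exp (c * T) * (2 * π * T ^ 2 * h ^ 2)) := by
      refine (measure_mono (bad_mono (VK_sub p _) T h)).trans ?_
      refine (bad_quant _ T h hT0 hh hh1.le).trans ?_
      apply ENNReal.ofReal_le_ofReal
      have := hcard T hT0
      gcongr
    have hDD := Pool.Agent.W396.BB.DD_meas hreg S hδ hδη hk0
    refine numbers M c δ ε h _ hM hc hδ hε hh hh1 k (by rw [← hT']; exact hk3) T hT0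
      (by rw [← hT']; exact hTT) hsmall ?_
    refine hDD.trans ?_
    gcongr
    refine (le_of_eq rfl).trans (hest.trans ?_)
    gcongr
  show volume (Pool.Agent.W396.BB.DD p S (2 * η) δ) = 0
  have hlim : Tendsto (fun ε : ℝ => ENNReal.ofReal ((12 * π * δ * c + 1) * ε)) (𝓝[>] 0)
      (𝓝 0) := by
    have h1 : Tendsto (fun ε : ℝ => (12 * π * δ * c + 1) * ε) (𝓝 0)
        (𝓝 ((12 * π * δ * c + 1) * 0)) := tendsto_const_nhds.mul tendsto_id
    rw [mul_zero] at h1
    have := (ENNReal.continuous_ofReal.tendsto 0).comp h1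
    rw [ENNReal.ofReal_zero] at this
    exact this.mono_left nhdsWithin_le_nhds
  refine le_antisymm ?_ zero_le
  refine ge_of_tendsto hlim ?_
  filter_upwards [self_mem_nhdsWithin] with ε hε
  exact key ε hε

end Pool.Agent.TH225.BL
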