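import Pool.Agent.TH225.BL.Lim

set_option autoImplicit false

/-!
Structure of the invariant sets of slow directional perimeter.
-/

namespace Pool.Agent.TH225.BL

open Complex Set MeasureTheory Filter Topology Pool.Agent.W780.PG Pool.Agent.W780.BB

open scoped Real ComplexConjugate

theorem structure_slow {n : ℕ} {p : Fin (n + 3) → ℂ} (hp : IsConvexPolygon p)
    (S : Set (ℂ × ℝ)) (hS : MeasurableSet S) (hI : IsInvariant p S) (hF : SlowPerimeter p S) :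
    ∃ Θ : Set ℝ, MeasurableSet Θ ∧ (∀ θ, θ + 2 * π ∈ Θ ↔ θ ∈ Θ) ∧
      volume {x : ℂ × ℝ | x ∈ phase p ∧ ¬ (x ∈ S ↔ x.2 ∈ Θ)} = 0 := by
  have hB : S_Basic := Pool.Agent.W174.PG.basic
  have hH : S_Hull := Pool.Agent.W975.PG.hull hB
  exact Pool.Agent.W803.BBD.dir_main hB hH n p hp S hS hI
    (fun η δ h1 h2 => lim_slow hp S hS hI hF η δ h1 h2)

theorem trivial_of_dir {n : ℕ} {p : Fin (n + 3) → ℂ} (hp : IsConvexPolygon p)
    (hirr : ∃ i, Irrational (ang p i / π)) (S : Set (ℂ × ℝ)) (hS : MeasurableSet S)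
    (hI : IsInvariant p S) (h : ∃ Θ : Set ℝ, MeasurableSet Θ ∧ (∀ θ, θ + 2 * π ∈ Θ ↔ θ ∈ Θ) ∧
      volume {x : ℂ × ℝ | x ∈ phase p ∧ ¬ (x ∈ S ↔ x.2 ∈ Θ)} = 0) : IsTrivial p S := by
  have hB : S_Basic := Pool.Agent.W174.PG.basic
  have hH : S_Hull := Pool.Agent.W975.PG.hull hB
  obtain ⟨Θ, hΘ, hper, hnull⟩ := h
  have hrf := Pool.Agent.W101.BB.refl hB hH n p hp S hS hI Θ hΘ hper hnull
  obtain ⟨i, hi⟩ := hirr
  obtain ⟨k, hk⟩ := Pool.Agent.W337.BB.tau_th n p hp i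
  have hirr2 : Irrational ((tau p i - tau p (i - 1)) / π) := by
    rw [hk]
    have : (π - ang p i + 2 * k * π) / π = ((1 + 2 * k : ℤ) : ℝ) - ang p i / π := by
      have := Real.pi_ne_zero
      field_simp
      push_cast
      ring
    rw [this]
    exact hi.intCast_sub _
  rcases Pool.Agent.W363.BB.rot Θ (tau p i) (tau p (i - 1)) hΘ hper (hrf i) (hrf (i - 1)) hirr2
    with h | h
  · left
    refine measure_mono_null (t := {x : ℂ × ℝ | x ∈ phase p ∧ ¬ (x ∈ S ↔ x.2 ∈ Θ)} ∪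
      (univ ×ˢ Θ)) ?_ ?_
    · rintro x ⟨h1, h2⟩
      by_cases hx : x.2 ∈ Θ
      · exact Or.inr ⟨mem_univ _, hx⟩
      · exact Or.inl ⟨h1, fun h3 => hx (h3.mp h2)⟩
    · refine measure_union_null hnull ?_
      rw [Measure.volume_eq_prod, Measure.prod_prod, h, mul_zero]
  · right
    refine measure_mono_null (t := {x : ℂ × ℝ | x ∈ phase p ∧ ¬ (x ∈ S ↔ x.2 ∈ Θ)} ∪
      (univ ×ˢ Θᶜ)) ?_ ?_
    · rintro x ⟨h1, h2⟩
      by_cases hx : x.2 ∈ Θ
      · exact Or.inl ⟨h1, fun h3 => h2 (h3.mpr hx)⟩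
      · exact Or.inr ⟨mem_univ _, hx⟩
    · refine measure_union_null hnull ?_
      rw [Measure.volume_eq_prod, Measure.prod_prod, h, mul_zero]

theorem slow_of_finite {n : ℕ} {p : Fin (n + 3) → ℂ} {S : Set (ℂ × ℝ)}
    (hF : FinitePerimeter p S) : SlowPerimeter p S := by
  obtain ⟨C, hC⟩ := hF
  intro ε hε
  apply Eventually.frequently
  have e1 : Tendsto (fun h : ℝ => Real.log (1 / h)) (𝓝[>] 0) atTop := by
    have h1 : Tendsto (fun h : ℝ => h⁻¹) (𝓝[>] 0) atTop := tendsto_inv_nhdsGT_zero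
    have h2 := Real.tendsto_log_atTop.comp h1
    refine h2.congr fun x => ?_
    rw [Function.comp_apply, one_div]
  filter_upwards [e1.eventually_ge_atTop (C / ε), Ioo_mem_nhdsGT (zero_lt_one : (0 : ℝ) < 1)]
    with h h1 h2
  refine (hC h h2.1 h2.2).trans (ENNReal.ofReal_le_ofReal ?_)
  rw [div_le_iff₀ hε] at h1
  have := mul_le_mul_of_nonneg_right h1 h2.1.le
  calc C * h ≤ Real.log (1 / h) * ε * h := this
    _ = ε * (h * Real.log (1 / h)) := by ring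

theorem slow_main {n : ℕ} {p : Fin (n + 3) → ℂ} (hp : IsConvexPolygon p) :
    (∀ A : Set (ℂ × ℝ), MeasurableSet A → IsInvariant p A → SlowPerimeter p A →
      ∃ Θ : Set ℝ, MeasurableSet Θ ∧
        volume {x : ℂ × ℝ | x ∈ phase p ∧ ¬ (x ∈ A ↔ x.2 ∈ Θ)} = 0) ∧
    ((∃ i, Irrational (ang p i / π)) ↔
      ∀ A : Set (ℂ × ℝ), MeasurableSet A → IsInvariant p A → SlowPerimeter p A →
        IsTrivial p A) := by
  refine ⟨fun A h1 h2 h3 => ?_, fun hirr A h1 h2 h3 => ?_, fun hall => ?_⟩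
  · obtain ⟨Θ, a, -, c⟩ := structure_slow hp A h1 h2 h3
    exact ⟨Θ, a, c⟩
  · exact trivial_of_dir hp hirr A h1 h2 (structure_slow hp A h1 h2 h3)
  · exact (finished hp).2.2 fun A h1 h2 h3 => hall A h1 h2 (slow_of_finite h3)

end Pool.Agent.TH225.BL
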